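import Mathlib

set_option autoImplicit false

namespace Pool.Agent.Results.MP_d27362_co.TreeClass

/-- Two copies of `B` attached to `T` by edges from `a` to the two copies of `b`. -/
def doubled {V U : Type} (T : SimpleGraph V) (B : SimpleGraph U) (a : V) (b : U) :
    SimpleGraph (V ⊕ (U ⊕ U)) :=
  (SimpleGraph.sum T (SimpleGraph.sum B B)) ⊔ SimpleGraph.edge (Sum.inl a) (Sum.inr (Sum.inl b)) ⊔
    SimpleGraph.edge (Sum.inl a) (Sum.inr (Sum.inr b))

/-- The rooted product: a copy of `B` is glued with its vertex `b` to every vertex of `T`. -/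
def rooted {V U : Type} (T : SimpleGraph V) (B : SimpleGraph U) (b : U) :
    SimpleGraph (V × U) where
  Adj p q := (p.1 = q.1 ∧ B.Adj p.2 q.2) ∨ (T.Adj p.1 q.1 ∧ p.2 = b ∧ q.2 = b)
  symm := ⟨by
    rintro p q (⟨h1, h2⟩ | ⟨h1, h2, h3⟩)
    · exact Or.inl ⟨h1.symm, h2.symm⟩
    · exact Or.inr ⟨h1.symm, h3, h2⟩⟩
  loopless := ⟨by
    rintro p (⟨_, h2⟩ | ⟨h1, _⟩)
    · exact B.loopless.irrefl _ h2
    · exact T.loopless.irrefl _ h1⟩

/-- The class of graphs generated by trees whose vertices of even degree lie on one path,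
under doubling a pendant graph and under rooted products. -/
inductive Cls : (n : ℕ) → SimpleGraph (Fin n) → Prop
  | evenOnPath {n : ℕ} (T : SimpleGraph (Fin n)) (hT : T.IsTree) (u v : Fin n) (p : T.Walk u v)
      (hp : p.IsPath) (hev : ∀ x, Even ((T.neighborSet x).ncard) → x ∈ p.support) : Cls n T
  | double {n k l : ℕ} (T : SimpleGraph (Fin n)) (B : SimpleGraph (Fin k)) (a : Fin n) (b : Fin k)
      (T' : SimpleGraph (Fin l)) (e : T' ≃g doubled T B a b) : Cls n T → Cls k B → Cls l T'
  | product {n k l : ℕ} (T : SimpleGraph (Fin n)) (B : SimpleGraph (Fin k)) (b : Fin k)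
      (T' : SimpleGraph (Fin l)) (e : T' ≃g rooted T B b) : Cls n T → Cls k B → Cls l T'



open Finset

section Basics

variable {Ω : Type} [Fintype Ω]

/-- Twice the indicator of the arc `x → y` (for `true`) or `y → x` (for `false`). -/
noncomputable def kap (G : Ω → Ω → Prop) (e : Bool) (x y : Ω) : ℝ := by
  classical
  exact if (if e then G x y else G y x) then 2 else 0

/-- The averaging operator of the weighted tournament. -/
noncomputable def KK (G : Ω → Ω → Prop) (w : Ω → ℝ) (e : Bool) (F : Ω → ℝ) (x : Ω) : ℝ :=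
  ∑ y, w y * kap G e x y * F y

/-- Normalised out-degree (`true`) or in-degree (`false`). -/
noncomputable def PQ (G : Ω → Ω → Prop) (w : Ω → ℝ) (e : Bool) (x : Ω) : ℝ :=
  ∑ y, w y * kap G e x y

/-- Tournament with a probability weight. -/
structure Valid (G : Ω → Ω → Prop) (w : Ω → ℝ) : Prop where
  irr : ∀ a, ¬ G a a
  tour : ∀ a b, a ≠ b → (G a b ↔ ¬ G b a)
  nonneg : ∀ x, 0 ≤ w x
  sum_one : ∑ x, w x = 1

variable {G : Ω → Ω → Prop} {w : Ω → ℝ}

omit [Fintype Ω] in
lemma kap_nonneg (e : Bool) (x y : Ω) : 0 ≤ kap G e x y := by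
  classical
  unfold kap
  by_cases hh : (if e then G x y else G y x)
  · rw [if_pos hh]; norm_num
  · rw [if_neg hh]

omit [Fintype Ω] in
lemma kap_swap (e : Bool) (x y : Ω) : kap G e x y = kap G (!e) y x := by
  unfold kap
  cases e <;> simp

lemma kap_add_le (h : Valid G w) (e : Bool) (x y : Ω) :
    kap G e x y + kap G (!e) x y ≤ 2 := by
  unfold kap
  by_cases hxy : x = y
  · subst hxy
    cases e <;> simp [h.irr x]
  · have := h.tour x y hxy
    by_cases h1 : G x y
    · have h2 : ¬ G y x := this.mp h1
      cases e <;> simp [h1, h2]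
    · have h2 : G y x := by
        by_contra h2
        exact h1 (this.mpr h2)
      cases e <;> simp [h1, h2]

lemma PQ_nonneg (h : Valid G w) (e : Bool) (x : Ω) : 0 ≤ PQ G w e x :=
  Finset.sum_nonneg fun y _ => mul_nonneg (h.nonneg y) (kap_nonneg e x y)

lemma PQ_add_le (h : Valid G w) (e : Bool) (x : Ω) : PQ G w e x + PQ G w (!e) x ≤ 2 := by
  unfold PQ
  rw [← Finset.sum_add_distrib]
  calc ∑ y, (w y * kap G e x y + w y * kap G (!e) x y)
      ≤ ∑ y, w y * 2 := by
        apply Finset.sum_le_sum
        intro y _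
        rw [← mul_add]
        exact mul_le_mul_of_nonneg_left (kap_add_le h e x y) (h.nonneg y)
    _ = 2 := by rw [← Finset.sum_mul, h.sum_one, one_mul]

lemma PQ_mul_le (h : Valid G w) (e : Bool) (x : Ω) : PQ G w e x * PQ G w (!e) x ≤ 1 := by
  have h1 := PQ_add_le h e x
  have h2 := PQ_nonneg h e x
  have h3 := PQ_nonneg h (!e) x
  nlinarith [sq_nonneg (PQ G w e x - PQ G w (!e) x)]

lemma sum_KK (e : Bool) (F : Ω → ℝ) :
    ∑ x, w x * KK G w e F x = ∑ y, w y * (PQ G w (!e) y * F y) := by
  unfold KK PQ
  simp only [Finset.mul_sum, Finset.sum_mul]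
  rw [Finset.sum_comm]
  apply Finset.sum_congr rfl
  intro y _
  apply Finset.sum_congr rfl
  intro x _
  rw [kap_swap e x y]
  ring

lemma sum_PQ_le (h : Valid G w) (e : Bool) : ∑ x, w x * PQ G w e x ≤ 1 := by
  have h1 : ∑ x, w x * PQ G w e x = ∑ x, w x * PQ G w (!e) x := by
    have := sum_KK (G := G) (w := w) e (fun _ => 1)
    simpa [KK, PQ] using this
  have h2 : ∑ x, w x * PQ G w e x + ∑ x, w x * PQ G w (!e) x ≤ 2 := by
    rw [← Finset.sum_add_distrib]
    calc ∑ x, (w x * PQ G w e x + w x * PQ G w (!e) x)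
        ≤ ∑ x, w x * 2 := by
          apply Finset.sum_le_sum
          intro x _
          rw [← mul_add]
          exact mul_le_mul_of_nonneg_left (PQ_add_le h e x) (h.nonneg x)
      _ = 2 := by rw [← Finset.sum_mul, h.sum_one, one_mul]
  linarith

lemma KK_nonneg (h : Valid G w) (e : Bool) {F : Ω → ℝ} (hF : ∀ x, 0 ≤ F x) (x : Ω) :
    0 ≤ KK G w e F x :=
  Finset.sum_nonneg fun y _ => mul_nonneg (mul_nonneg (h.nonneg y) (kap_nonneg e x y)) (hF y)

lemma KK_le_PQ (h : Valid G w) (e : Bool) {F : Ω → ℝ} (hF : ∀ x, F x ≤ 1) (x : Ω) :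
    KK G w e F x ≤ PQ G w e x := by
  unfold KK PQ
  apply Finset.sum_le_sum
  intro y _
  have := mul_le_mul_of_nonneg_left (hF y) (mul_nonneg (h.nonneg y) (kap_nonneg (G := G) e x y))
  simpa using this

/-- Cauchy-Schwarz for the averaging operator. -/
lemma KK_sq_le (h : Valid G w) (e : Bool) (F : Ω → ℝ) (x : Ω) :
    (KK G w e F x) ^ 2 ≤ PQ G w e x * KK G w e (fun y => F y ^ 2) x := by
  unfold KK PQ
  apply Finset.sum_sq_le_sum_mul_sum_of_sq_le_mul
  · intro y _
    exact mul_nonneg (h.nonneg y) (kap_nonneg e x y)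
  · intro y _
    exact mul_nonneg (mul_nonneg (h.nonneg y) (kap_nonneg e x y)) (sq_nonneg _)
  · intro y _
    exact le_of_eq (by ring)

/-- Weighted Cauchy-Schwarz. -/
lemma wsum_sq_le (h : Valid G w) (a F : Ω → ℝ) (ha : ∀ x, 0 ≤ a x) :
    (∑ x, w x * (a x * F x)) ^ 2 ≤ (∑ x, w x * a x) * ∑ x, w x * (a x * F x ^ 2) := by
  apply Finset.sum_sq_le_sum_mul_sum_of_sq_le_mul
  · intro y _
    exact mul_nonneg (h.nonneg y) (ha y)
  · intro y _
    exact mul_nonneg (h.nonneg y) (mul_nonneg (ha y) (sq_nonneg _))
  · intro y _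
    exact le_of_eq (by ring)

/-- The weight class of a vertex: `1` or a single degree factor. -/
noncomputable def PL (G : Ω → Ω → Prop) (w : Ω → ℝ) (s lam : Bool) (x : Ω) : ℝ :=
  if lam then PQ G w s x else 1

lemma PL_nonneg (h : Valid G w) (s lam : Bool) (x : Ω) : 0 ≤ PL G w s lam x := by
  unfold PL
  split_ifs
  · exact PQ_nonneg h s x
  · norm_num

/-- First end of the path. -/
lemma root_bound (h : Valid G w) (e lam : Bool) (W0 W1 : Ω → ℝ)
    (h0 : ∀ x, W0 x ≤ PL G w (!e) lam x) (h1 : ∀ x, 0 ≤ W1 x)
    (hW : ∑ x, w x * (PQ G w (!e) x * W1 x ^ 2) ≤ 1) :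
    ∑ x, w x * (W0 x * KK G w e W1 x) ≤ 1 := by
  have hA : ∑ x, w x * (W0 x * KK G w e W1 x) ≤
      ∑ x, w x * (PL G w (!e) lam x * KK G w e W1 x) := by
    apply Finset.sum_le_sum
    intro x _
    apply mul_le_mul_of_nonneg_left _ (h.nonneg x)
    exact mul_le_mul_of_nonneg_right (h0 x) (KK_nonneg h e h1 x)
  refine hA.trans ?_
  cases lam with
  | false =>
    simp only [PL, Bool.false_eq_true, if_false, one_mul]
    rw [sum_KK]
    have hcs := wsum_sq_le h (fun x => PQ G w (!e) x) W1 (fun x => PQ_nonneg h (!e) x)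
    have hP := sum_PQ_le h (!e)
    have hP0 : 0 ≤ ∑ x, w x * PQ G w (!e) x :=
      Finset.sum_nonneg fun x _ => mul_nonneg (h.nonneg x) (PQ_nonneg h _ x)
    have hW0 : 0 ≤ ∑ x, w x * (PQ G w (!e) x * W1 x ^ 2) :=
      Finset.sum_nonneg fun x _ =>
        mul_nonneg (h.nonneg x) (mul_nonneg (PQ_nonneg h _ x) (sq_nonneg _))
    have hle : (∑ x, w x * (PQ G w (!e) x * W1 x)) ^ 2 ≤ 1 :=
      hcs.trans (by nlinarith)
    nlinarith [sq_nonneg (∑ x, w x * (PQ G w (!e) x * W1 x) - 1)]
  | true =>
    simp only [PL, if_true]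
    have hcs := wsum_sq_le h (fun x => PQ G w (!e) x) (fun x => KK G w e W1 x)
      (fun x => PQ_nonneg h (!e) x)
    have hP := sum_PQ_le h (!e)
    have hP0 : 0 ≤ ∑ x, w x * PQ G w (!e) x :=
      Finset.sum_nonneg fun x _ => mul_nonneg (h.nonneg x) (PQ_nonneg h _ x)
    have hW0 : 0 ≤ ∑ x, w x * (PQ G w (!e) x * (KK G w e W1 x) ^ 2) :=
      Finset.sum_nonneg fun x _ =>
        mul_nonneg (h.nonneg x) (mul_nonneg (PQ_nonneg h _ x) (sq_nonneg _))
    have hB : ∑ x, w x * (PQ G w (!e) x * (KK G w e W1 x) ^ 2) ≤ 1 := by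
      calc ∑ x, w x * (PQ G w (!e) x * (KK G w e W1 x) ^ 2)
          ≤ ∑ x, w x * KK G w e (fun y => W1 y ^ 2) x := by
            apply Finset.sum_le_sum
            intro x _
            apply mul_le_mul_of_nonneg_left _ (h.nonneg x)
            have hK := KK_nonneg h e (F := fun y => W1 y ^ 2) (fun y => sq_nonneg _) x
            calc PQ G w (!e) x * (KK G w e W1 x) ^ 2
                ≤ PQ G w (!e) x * (PQ G w e x * KK G w e (fun y => W1 y ^ 2) x) :=
                  mul_le_mul_of_nonneg_left (KK_sq_le h e W1 x) (PQ_nonneg h _ x)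
              _ = (PQ G w e x * PQ G w (!e) x) * KK G w e (fun y => W1 y ^ 2) x := by ring
              _ ≤ 1 * KK G w e (fun y => W1 y ^ 2) x :=
                  mul_le_mul_of_nonneg_right (PQ_mul_le h e x) hK
              _ = _ := one_mul _
        _ = ∑ x, w x * (PQ G w (!e) x * W1 x ^ 2) := sum_KK e _
        _ ≤ 1 := hW
    have hle : (∑ x, w x * (PQ G w (!e) x * KK G w e W1 x)) ^ 2 ≤ 1 :=
      hcs.trans (by nlinarith)
    nlinarith [sq_nonneg (∑ x, w x * (PQ G w (!e) x * KK G w e W1 x) - 1)]

/-- One step along the path. `e` is the sign of the new edge, `e'` the sign of the previous one. -/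
lemma step_bound (h : Valid G w) (e lam : Bool) (W0 W1 : Ω → ℝ) (hn : ∀ x, 0 ≤ W0 x)
    (h0 : ∀ x, W0 x ≤ PL G w (xor e lam) lam x)
    (hW : ∑ x, w x * (PQ G w (!e) x * W1 x ^ 2) ≤ 1) :
    ∑ x, w x * (PQ G w (!(xor e lam)) x * (W0 x * KK G w e W1 x) ^ 2) ≤ 1 := by
  calc ∑ x, w x * (PQ G w (!(xor e lam)) x * (W0 x * KK G w e W1 x) ^ 2)
      ≤ ∑ x, w x * KK G w e (fun y => W1 y ^ 2) x := by
        apply Finset.sum_le_sum
        intro x _
        apply mul_le_mul_of_nonneg_left _ (h.nonneg x)
        have hK := KK_nonneg h e (F := fun y => W1 y ^ 2) (fun y => sq_nonneg _) x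
        have hP1 := PQ_nonneg h e x
        have hP2 := PQ_nonneg h (!e) x
        have hm := PQ_mul_le h e x
        have hcs := KK_sq_le h e W1 x
        have hx := h0 x
        have hx0 := hn x
        cases lam with
        | false =>
          simp only [Bool.xor_false, PL, Bool.false_eq_true, if_false] at hx ⊢
          calc PQ G w (!e) x * (W0 x * KK G w e W1 x) ^ 2
              = (PQ G w (!e) x * (W0 x) ^ 2) * (KK G w e W1 x) ^ 2 := by ring
            _ ≤ (PQ G w (!e) x * 1) * (PQ G w e x * KK G w e (fun y => W1 y ^ 2) x) := by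
                apply mul_le_mul _ hcs (sq_nonneg _) (by simpa using hP2)
                apply mul_le_mul_of_nonneg_left _ hP2
                nlinarith
            _ = (PQ G w e x * PQ G w (!e) x) * KK G w e (fun y => W1 y ^ 2) x := by ring
            _ ≤ 1 * KK G w e (fun y => W1 y ^ 2) x := mul_le_mul_of_nonneg_right hm hK
            _ = _ := one_mul _
        | true =>
          simp only [Bool.xor_true, PL, if_true, Bool.not_not] at hx ⊢
          have hsq : (W0 x) ^ 2 ≤ (PQ G w (!e) x) ^ 2 := by nlinarith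
          calc PQ G w e x * (W0 x * KK G w e W1 x) ^ 2
              = (PQ G w e x * (W0 x) ^ 2) * (KK G w e W1 x) ^ 2 := by ring
            _ ≤ (PQ G w e x * (PQ G w (!e) x) ^ 2) *
                (PQ G w e x * KK G w e (fun y => W1 y ^ 2) x) := by
                apply mul_le_mul _ hcs (sq_nonneg _) (by positivity)
                exact mul_le_mul_of_nonneg_left hsq hP1
            _ = (PQ G w e x * PQ G w (!e) x) ^ 2 * KK G w e (fun y => W1 y ^ 2) x := by ring
            _ ≤ 1 * KK G w e (fun y => W1 y ^ 2) x := by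
                apply mul_le_mul_of_nonneg_right _ hK
                have : 0 ≤ PQ G w e x * PQ G w (!e) x := mul_nonneg hP1 hP2
                nlinarith
            _ = _ := one_mul _
    _ = ∑ x, w x * (PQ G w (!e) x * W1 x ^ 2) := sum_KK e _
    _ ≤ 1 := hW

/-- The last vertex of the path. -/
lemma last_bound (h : Valid G w) (e lam : Bool) (W0 : Ω → ℝ) (hn : ∀ x, 0 ≤ W0 x)
    (h0 : ∀ x, W0 x ≤ PL G w e lam x) :
    ∑ x, w x * (PQ G w (!e) x * W0 x ^ 2) ≤ 1 := by
  cases lam with
  | false =>
    calc ∑ x, w x * (PQ G w (!e) x * W0 x ^ 2) ≤ ∑ x, w x * PQ G w (!e) x := by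
          apply Finset.sum_le_sum
          intro x _
          apply mul_le_mul_of_nonneg_left _ (h.nonneg x)
          have hx := h0 x
          simp only [PL, Bool.false_eq_true, if_false] at hx
          have h2 := hn x
          have : W0 x ^ 2 ≤ 1 := by nlinarith
          nlinarith [PQ_nonneg h (!e) x]
      _ ≤ 1 := sum_PQ_le h _
  | true =>
    calc ∑ x, w x * (PQ G w (!e) x * W0 x ^ 2) ≤ ∑ x, w x * PQ G w e x := by
          apply Finset.sum_le_sum
          intro x _
          apply mul_le_mul_of_nonneg_left _ (h.nonneg x)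
          have hx := h0 x
          simp only [PL, if_true] at hx
          have h2 := hn x
          have hP1 := PQ_nonneg h e x
          have hP2 := PQ_nonneg h (!e) x
          have hm := PQ_mul_le h e x
          have hsq : W0 x ^ 2 ≤ PQ G w e x ^ 2 := by nlinarith
          calc PQ G w (!e) x * W0 x ^ 2 ≤ PQ G w (!e) x * PQ G w e x ^ 2 :=
                mul_le_mul_of_nonneg_left hsq hP2
            _ = (PQ G w e x * PQ G w (!e) x) * PQ G w e x := by ring
            _ ≤ 1 * PQ G w e x := mul_le_mul_of_nonneg_right hm hP1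
            _ = _ := one_mul _
      _ ≤ 1 := sum_PQ_le h _

lemma single_bound (h : Valid G w) (e lam : Bool) (W0 : Ω → ℝ)
    (h0 : ∀ x, W0 x ≤ PL G w e lam x) :
    ∑ x, w x * W0 x ≤ 1 := by
  calc ∑ x, w x * W0 x ≤ ∑ x, w x * PL G w e lam x :=
        Finset.sum_le_sum fun x _ => mul_le_mul_of_nonneg_left (h0 x) (h.nonneg x)
    _ ≤ 1 := by
        cases lam with
        | false => simp [PL, h.sum_one]
        | true => simpa [PL] using sum_PQ_le h e

end Basics

section Elim

variable {V : Type} [Fintype V] [DecidableEq V] {Ω : Type} [Fintype Ω]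

/-- Averaging over one coordinate. -/
lemma avg (w : Ω → ℝ) (hw : ∑ x, w x = 1) (l : V) (h : (V → Ω) → Ω → ℝ)
    (hh : ∀ f y a, h (Function.update f l a) y = h f y) :
    ∑ f : V → Ω, (∏ v, w (f v)) * h f (f l) =
      ∑ f : V → Ω, (∏ v, w (f v)) * ∑ y, w y * h f y := by
  classical
  have key : ∑ q : (V → Ω) × Ω, (∏ v, w (q.1 v)) * (w q.2 * h q.1 q.2) =
      ∑ q : (V → Ω) × Ω, w q.2 * ((∏ v, w (q.1 v)) * h q.1 (q.1 l)) := by
    let E : (V → Ω) × Ω ≃ (V → Ω) × Ω :=
      { toFun := fun q => (Function.update q.1 l q.2, q.1 l)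
        invFun := fun q => (Function.update q.1 l q.2, q.1 l)
        left_inv := by
          rintro ⟨f, y⟩
          simp
        right_inv := by
          rintro ⟨f, y⟩
          simp }
    rw [← Equiv.sum_comp E]
    apply Finset.sum_congr rfl
    rintro ⟨f, y⟩ _
    simp only [E, Equiv.coe_fn_mk, hh]
    have h1 : ∏ v, w (Function.update f l y v) = w y * ∏ v ∈ Finset.univ \ {l}, w (f v) := by
      have : (fun v => w (Function.update f l y v)) =
          Function.update (fun v => w (f v)) l (w y) := by
        funext v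
        by_cases hv : v = l
        · subst hv; simp
        · simp [Function.update_of_ne hv]
      calc ∏ v, w (Function.update f l y v)
          = ∏ v, Function.update (fun v => w (f v)) l (w y) v := by rw [← this]
        _ = _ := Finset.prod_update_of_mem (Finset.mem_univ l) _ _
    have h2 : ∏ v, w (f v) = w (f l) * ∏ v ∈ Finset.univ \ {l}, w (f v) := by
      rw [← Finset.erase_eq, Finset.mul_prod_erase _ (fun v => w (f v)) (Finset.mem_univ l)]
    rw [h1, h2]
    ring
  rw [Fintype.sum_prod_type, Fintype.sum_prod_type] at key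
  simp only [← Finset.mul_sum, ← Finset.sum_mul] at key
  rw [hw] at key
  simp only [one_mul] at key
  exact key.symm

/-- The weighted homomorphism sum of the rooted tree with vertex set `A`. -/
noncomputable def Z (G : Ω → Ω → Prop) (w : Ω → ℝ) (r : V) (par : V → V) (A : Finset V)
    (ep : V → Bool) (W : V → Ω → ℝ) : ℝ :=
  ∑ f : V → Ω, (∏ v, w (f v)) *
    ((∏ x ∈ A.erase r, kap G (ep x) (f (par x)) (f x)) * ∏ x ∈ A, W x (f x))

variable {G : Ω → Ω → Prop} {w : Ω → ℝ} {r : V} {par : V → V}

lemma Z_single (hw : ∑ x, w x = 1) (ep : V → Bool) (W : V → Ω → ℝ) :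
    Z G w r par {r} ep W = ∑ x, w x * W r x := by
  have h1 : Z G w r par {r} ep W = ∑ f : V → Ω, (∏ v, w (f v)) * W r (f r) := by
    unfold Z
    apply Finset.sum_congr rfl
    intro f _
    simp
  rw [h1, avg w hw r (fun _ y => W r y) (fun _ _ _ => rfl), ← Finset.sum_mul]
  have h2 : ∑ f : V → Ω, ∏ v, w (f v) = 1 := by
    have := Finset.prod_univ_sum (fun _ : V => (Finset.univ : Finset Ω)) (fun _ x => w x)
    simp only [hw, Finset.prod_const_one, Fintype.piFinset_univ] at this
    exact this.symm
  rw [h2, one_mul]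

lemma Z_elim (hw : ∑ x, w x = 1) {A : Finset V} {l : V} (hl : l ∈ A) (hlr : l ≠ r)
    (hp : par l ∈ A) (hpl : par l ≠ l) (hc : ∀ x ∈ A, x ≠ r → par x ≠ l)
    (ep : V → Bool) (W : V → Ω → ℝ) :
    Z G w r par A ep W = Z G w r par (A.erase l) ep
      (Function.update W (par l) (fun x => W (par l) x * KK G w (ep l) (W l) x)) := by
  have hpA : par l ∈ A.erase l := Finset.mem_erase.mpr ⟨hpl, hp⟩
  let h : (V → Ω) → Ω → ℝ := fun f y =>
    (∏ x ∈ (A.erase l).erase r, kap G (ep x) (f (par x)) (f x)) *
      (∏ x ∈ A.erase l, W x (f x)) * (kap G (ep l) (f (par l)) y * W l y)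
  have hh : ∀ f y a, h (Function.update f l a) y = h f y := by
    intro f y a
    simp only [h]
    congr 1
    · congr 1
      · apply Finset.prod_congr rfl
        intro x hx
        have hx1 : x ≠ r := (Finset.mem_erase.mp hx).1
        have hx2 : x ≠ l := (Finset.mem_erase.mp (Finset.mem_erase.mp hx).2).1
        have hx3 : x ∈ A := (Finset.mem_erase.mp (Finset.mem_erase.mp hx).2).2
        rw [Function.update_of_ne hx2, Function.update_of_ne (hc x hx3 hx1)]
      · apply Finset.prod_congr rfl
        intro x hx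
        rw [Function.update_of_ne (Finset.mem_erase.mp hx).1]
    · rw [Function.update_of_ne hpl]
  have hL : Z G w r par A ep W = ∑ f : V → Ω, (∏ v, w (f v)) * h f (f l) := by
    unfold Z
    apply Finset.sum_congr rfl
    intro f _
    congr 1
    simp only [h]
    have e1 : ∏ x ∈ A.erase r, kap G (ep x) (f (par x)) (f x) =
        kap G (ep l) (f (par l)) (f l) *
          ∏ x ∈ (A.erase l).erase r, kap G (ep x) (f (par x)) (f x) := by
      rw [Finset.erase_right_comm,
        Finset.mul_prod_erase _ (fun x => kap G (ep x) (f (par x)) (f x))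
          (Finset.mem_erase.mpr ⟨hlr, hl⟩)]
    have e2 : ∏ x ∈ A, W x (f x) = W l (f l) * ∏ x ∈ A.erase l, W x (f x) :=
      (Finset.mul_prod_erase _ (fun x => W x (f x)) hl).symm
    rw [e1, e2]
    ring
  rw [hL, avg w hw l h hh]
  unfold Z
  apply Finset.sum_congr rfl
  intro f _
  congr 1
  have e3 : ∏ x ∈ A.erase l, (Function.update W (par l)
      (fun x => W (par l) x * KK G w (ep l) (W l) x)) x (f x) =
      (∏ x ∈ A.erase l, W x (f x)) * KK G w (ep l) (W l) (f (par l)) := by
    rw [← Finset.mul_prod_erase _ _ hpA, ← Finset.mul_prod_erase _ (fun x => W x (f x)) hpA,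
      Function.update_self]
    have : ∏ x ∈ (A.erase l).erase (par l), (Function.update W (par l)
        (fun x => W (par l) x * KK G w (ep l) (W l) x)) x (f x) =
        ∏ x ∈ (A.erase l).erase (par l), W x (f x) := by
      apply Finset.prod_congr rfl
      intro x hx
      rw [Function.update_of_ne (Finset.mem_erase.mp hx).1]
    rw [this]
    ring
  rw [e3]
  simp only [h, KK, Finset.mul_sum]
  apply Finset.sum_congr rfl
  intro y _
  ring

end Elim

section Phases

variable {V : Type} [Fintype V] [DecidableEq V]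

lemma Z_congr {Ω : Type} [Fintype Ω] {G : Ω → Ω → Prop} {w : Ω → ℝ} {r : V} {par : V → V}
    {A : Finset V} {ep ep' : V → Bool} (h : ∀ x ∈ A, ep x = ep' x) (W : V → Ω → ℝ) :
    Z G w r par A ep W = Z G w r par A ep' W := by
  unfold Z
  apply Finset.sum_congr rfl
  intro f _
  congr 2
  apply Finset.prod_congr rfl
  intro x hx
  rw [h x (Finset.mem_of_mem_erase hx)]

/-- The first `i + 1` vertices of the path. -/
def seg (p : ℕ → V) (i : ℕ) : Finset V := (Finset.range (i + 1)).image p

/-- A path starting at the root and going away from it. -/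
structure PathData (r : V) (par : V → V) (p : ℕ → V) (L : ℕ) : Prop where
  zero : p 0 = r
  inj : ∀ i ≤ L, ∀ j ≤ L, p i = p j → i = j
  par_succ : ∀ i < L, par (p (i + 1)) = p i

omit [Fintype V] in
lemma mem_seg {p : ℕ → V} {i : ℕ} {x : V} : x ∈ seg p i ↔ ∃ j ≤ i, p j = x := by
  unfold seg
  simp only [Finset.mem_image, Finset.mem_range, Nat.lt_succ_iff]

variable {r : V} {par : V → V} {p : ℕ → V} {L : ℕ}

omit [Fintype V] in
lemma seg_erase (hp : PathData r par p L) (i : ℕ) (hi : i + 1 ≤ L) :
    (seg p (i + 1)).erase (p (i + 1)) = seg p i := by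
  ext x
  simp only [Finset.mem_erase, mem_seg]
  constructor
  · rintro ⟨hx, j, hj, rfl⟩
    refine ⟨j, ?_, rfl⟩
    by_contra hcon
    have : j = i + 1 := by omega
    subst this
    exact hx rfl
  · rintro ⟨j, hj, rfl⟩
    refine ⟨?_, j, by omega, rfl⟩
    intro h
    have := hp.inj j (by omega) (i + 1) hi h
    omega

lemma Z_seg_step (hp : PathData r par p L) (i : ℕ) (hi : i + 1 ≤ L)
    {Ω : Type} [Fintype Ω] {G : Ω → Ω → Prop} {w : Ω → ℝ} (h : Valid G w)
    (ep : V → Bool) (W : V → Ω → ℝ) :
    Z G w r par (seg p (i + 1)) ep W = Z G w r par (seg p i) ep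
      (Function.update W (p i) (fun x => W (p i) x * KK G w (ep (p (i + 1))) (W (p (i + 1))) x)) := by
  have hpar : par (p (i + 1)) = p i := hp.par_succ i (by omega)
  have hne : ∀ j, j ≤ i → p j ≠ p (i + 1) := by
    intro j hj h
    have := hp.inj j (by omega) (i + 1) hi h
    omega
  have hr : p (i + 1) ≠ r := by
    rw [← hp.zero]
    exact fun h => hne 0 (by omega) h.symm
  have := Z_elim (G := G) (w := w) (r := r) (par := par) h.sum_one (A := seg p (i + 1))
    (l := p (i + 1)) (mem_seg.mpr ⟨i + 1, le_refl _, rfl⟩) hr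
    (by rw [hpar]; exact mem_seg.mpr ⟨i, by omega, rfl⟩)
    (by rw [hpar]; exact hne i (le_refl _))
    (by
      intro x hx hxr
      obtain ⟨j, hj, rfl⟩ := mem_seg.mp hx
      obtain _ | j := j
      · exact absurd hp.zero hxr
      · rw [hp.par_succ j (by omega)]
        exact hne j (by omega))
    ep W
  rw [this, seg_erase hp i hi, hpar]

omit [Fintype V] in
lemma update_nonneg {Ω : Type} [Fintype Ω] {G : Ω → Ω → Prop} {w : Ω → ℝ} (h : Valid G w)
    {W : V → Ω → ℝ} (hW : ∀ v x, 0 ≤ W v x) (q l : V) (e : Bool) :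
    ∀ v x, 0 ≤ (Function.update W q (fun x => W q x * KK G w e (W l) x)) v x := by
  intro v x
  by_cases hv : v = q
  · subst hv
    rw [Function.update_self]
    exact mul_nonneg (hW _ _) (KK_nonneg h e (hW l) x)
  · rw [Function.update_of_ne hv]
    exact hW v x

lemma path_phase (hp : PathData r par p L) : ∀ i, i + 1 ≤ L → ∀ (lam : V → Bool) (e : Bool),
    ∃ ep s : V → Bool, ep (p (i + 1)) = e ∧
      ∀ (Ω : Type) [Fintype Ω] (G : Ω → Ω → Prop) (w : Ω → ℝ), Valid G w →
      ∀ W : V → Ω → ℝ, (∀ v x, 0 ≤ W v x) →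
        (∀ j ≤ i, ∀ x, W (p j) x ≤ PL G w (s (p j)) (lam (p j)) x) →
        (∑ x, w x * (PQ G w (!e) x * (W (p (i + 1)) x) ^ 2) ≤ 1) →
        Z G w r par (seg p (i + 1)) ep W ≤ 1 := by
  intro i
  induction i with
  | zero =>
    intro hL lam e
    refine ⟨fun _ => e, fun _ => !e, rfl, ?_⟩
    intro Ω _ G w h W hW0 hW1 hW2
    rw [Z_seg_step hp 0 hL h]
    have hs : seg p 0 = {r} := by
      ext x
      simp only [mem_seg, Finset.mem_singleton]
      constructor
      · rintro ⟨j, hj, rfl⟩
        have : j = 0 := by omega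
        subst this
        exact hp.zero
      · rintro rfl
        exact ⟨0, le_refl _, hp.zero⟩
    rw [hs, Z_single h.sum_one, hp.zero, Function.update_self]
    have hb := hW1 0 (le_refl _)
    rw [hp.zero] at hb
    exact root_bound h e (lam r) (W r) (W (p (0 + 1))) hb (hW0 _) hW2
  | succ i ih =>
    intro hL lam e
    obtain ⟨ep, s, hep, H⟩ := ih (by omega) lam (xor e (lam (p (i + 1))))
    have hne : ∀ j, j ≤ i + 1 → p j ≠ p (i + 1 + 1) := by
      intro j hj h
      have := hp.inj j (by omega) (i + 1 + 1) hL h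
      omega
    refine ⟨Function.update ep (p (i + 1 + 1)) e,
      Function.update s (p (i + 1)) (xor e (lam (p (i + 1)))), by simp, ?_⟩
    intro Ω _ G w h W hW0 hW1 hW2
    rw [Z_seg_step hp (i + 1) hL h, Function.update_self]
    rw [Z_congr (ep' := ep) (by
      intro x hx
      obtain ⟨j, hj, rfl⟩ := mem_seg.mp hx
      rw [Function.update_of_ne (hne j hj)])]
    apply H Ω G w h
    · exact update_nonneg h hW0 _ _ _
    · intro j hj x
      have hj' : p j ≠ p (i + 1) := by
        intro h
        have := hp.inj j (by omega) (i + 1) (by omega) h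
        omega
      rw [Function.update_of_ne hj']
      have := hW1 j (by omega) x
      rwa [Function.update_of_ne hj'] at this
    · rw [Function.update_self]
      apply step_bound h e (lam (p (i + 1)))
      · exact hW0 _
      · intro x
        have := hW1 (i + 1) (le_refl _) x
        rwa [Function.update_self] at this
      · exact hW2

lemma path_final (hp : PathData r par p L) (lam : V → Bool) :
    ∃ ep s : V → Bool,
      ∀ (Ω : Type) [Fintype Ω] (G : Ω → Ω → Prop) (w : Ω → ℝ), Valid G w →
      ∀ W : V → Ω → ℝ, (∀ v x, 0 ≤ W v x) →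
        (∀ j ≤ L, ∀ x, W (p j) x ≤ PL G w (s (p j)) (lam (p j)) x) →
        Z G w r par (seg p L) ep W ≤ 1 := by
  obtain _ | L := L
  · refine ⟨fun _ => true, fun _ => true, ?_⟩
    intro Ω _ G w h W hW0 hW1
    have hs : seg p 0 = {r} := by
      ext x
      simp only [mem_seg, Finset.mem_singleton]
      constructor
      · rintro ⟨j, hj, rfl⟩
        have : j = 0 := by omega
        subst this
        exact hp.zero
      · rintro rfl
        exact ⟨0, le_refl _, hp.zero⟩
    rw [hs, Z_single h.sum_one]
    have hb := hW1 0 (le_refl _)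
    rw [hp.zero] at hb
    exact single_bound h true (lam r) (W r) hb
  · obtain ⟨ep, s, hep, H⟩ := path_phase hp L (le_refl _) lam true
    refine ⟨ep, Function.update s (p (L + 1)) true, ?_⟩
    intro Ω _ G w h W hW0 hW1
    apply H Ω G w h W hW0
    · intro j hj x
      have hj' : p j ≠ p (L + 1) := by
        intro h
        have := hp.inj j (by omega) (L + 1) (le_refl _) h
        omega
      have := hW1 j (by omega) x
      rwa [Function.update_of_ne hj'] at this
    · apply last_bound h true (lam (p (L + 1))) _ (hW0 _)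
      intro x
      have := hW1 (L + 1) (le_refl _) x
      rwa [Function.update_self] at this

lemma off_path_phase (hp : PathData r par p L) (d : V → ℕ)
    (hd : ∀ x, x ≠ r → d (par x) < d x) : ∀ (n : ℕ) (A : Finset V), A.card = n →
    seg p L ⊆ A → (∀ x ∈ A, x ≠ r → par x ∈ A) → ∀ lam : V → Bool,
    (∀ x ∈ A, x ∉ seg p L →
      Even ((A.filter (fun y => y ≠ r ∧ par y = x)).card + (if lam x then 1 else 0))) →
    ∃ ep s : V → Bool,
      ∀ (Ω : Type) [Fintype Ω] (G : Ω → Ω → Prop) (w : Ω → ℝ), Valid G w →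
      ∀ W : V → Ω → ℝ, (∀ v x, 0 ≤ W v x) →
        (∀ v ∈ A, ∀ x, W v x ≤ PL G w (s v) (lam v) x) →
        Z G w r par A ep W ≤ 1 := by
  intro n
  induction n with
  | zero =>
    intro A hA hs
    exfalso
    have : r ∈ A := hs (mem_seg.mpr ⟨0, Nat.zero_le _, hp.zero⟩)
    rw [Finset.card_eq_zero] at hA
    simp [hA] at this
  | succ n ih =>
    intro A hA hs hcl lam hpar
    by_cases hAs : A = seg p L
    · obtain ⟨ep, s, H⟩ := path_final hp lam
      refine ⟨ep, s, ?_⟩
      intro Ω _ G w h W hW0 hW1
      rw [hAs]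
      apply H Ω G w h W hW0
      intro j hj x
      apply hW1
      rw [hAs]
      exact mem_seg.mpr ⟨j, hj, rfl⟩
    · have hne : (A \ seg p L).Nonempty := by
        rw [Finset.sdiff_nonempty]
        intro hsub
        exact hAs (Finset.Subset.antisymm hsub hs)
      obtain ⟨l, hl, hmax⟩ := Finset.exists_max_image (A \ seg p L) d hne
      have hlA : l ∈ A := (Finset.mem_sdiff.mp hl).1
      have hls : l ∉ seg p L := (Finset.mem_sdiff.mp hl).2
      have hlr : l ≠ r := by
        rintro rfl
        exact hls (mem_seg.mpr ⟨0, Nat.zero_le _, hp.zero⟩)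
      have hpl : par l ≠ l := by
        intro h
        have := hd l hlr
        rw [h] at this
        exact lt_irrefl _ this
      have hplA : par l ∈ A := hcl l hlA hlr
      have hc : ∀ x ∈ A, x ≠ r → par x ≠ l := by
        intro x hx hxr hxl
        have h1 : d l < d x := by
          have := hd x hxr
          rwa [hxl] at this
        by_cases hxs : x ∈ seg p L
        · obtain ⟨j, hj, rfl⟩ := mem_seg.mp hxs
          obtain _ | j := j
          · exact hxr hp.zero
          · rw [hp.par_succ j (by omega)] at hxl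
            exact hls (mem_seg.mpr ⟨j, by omega, hxl⟩)
        · have := hmax x (Finset.mem_sdiff.mpr ⟨hx, hxs⟩)
          omega
      have hlam : lam l = false := by
        have h0 : A.filter (fun y => y ≠ r ∧ par y = l) = ∅ := by
          apply Finset.filter_eq_empty_iff.mpr
          intro x hx hcon
          exact hc x hx hcon.1 hcon.2
        have := hpar l hlA hls
        rw [h0, Finset.card_empty, zero_add] at this
        by_contra hcon
        have hT : lam l = true := by simpa using hcon
        rw [hT] at this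
        simp at this
      obtain ⟨ep, s, H⟩ := ih (A.erase l)
        (by rw [Finset.card_erase_of_mem hlA, hA]; rfl)
        (by
          intro x hx
          refine Finset.mem_erase.mpr ⟨?_, hs hx⟩
          rintro rfl
          exact hls hx)
        (by
          intro x hx hxr
          have hxA := (Finset.mem_erase.mp hx).2
          exact Finset.mem_erase.mpr ⟨hc x hxA hxr, hcl x hxA hxr⟩)
        (Function.update lam (par l) (!lam (par l)))
        (by
          intro x hx hxs
          have hxA := (Finset.mem_erase.mp hx).2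
          have hxl := (Finset.mem_erase.mp hx).1
          have hold := hpar x hxA hxs
          by_cases hxp : x = par l
          · subst hxp
            rw [Function.update_self]
            have hf : (A.filter (fun y => y ≠ r ∧ par y = par l)).card =
                ((A.erase l).filter (fun y => y ≠ r ∧ par y = par l)).card + 1 := by
              rw [Finset.filter_erase, Finset.card_erase_of_mem
                (Finset.mem_filter.mpr ⟨hlA, hlr, rfl⟩)]
              have : 0 < (A.filter (fun y => y ≠ r ∧ par y = par l)).card :=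
                Finset.card_pos.mpr ⟨l, Finset.mem_filter.mpr ⟨hlA, hlr, rfl⟩⟩
              omega
            rw [hf] at hold
            cases hlp : lam (par l) with
            | false =>
              rw [hlp] at hold
              simpa using hold
            | true =>
              rw [hlp] at hold
              simp only [if_true] at hold
              simp only [Bool.not_true, Bool.false_eq_true, if_false, add_zero]
              rw [Nat.even_iff] at hold ⊢
              omega
          · rw [Function.update_of_ne hxp]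
            have hf : (A.erase l).filter (fun y => y ≠ r ∧ par y = x) =
                A.filter (fun y => y ≠ r ∧ par y = x) := by
              ext y
              simp only [Finset.mem_filter, Finset.mem_erase]
              constructor
              · rintro ⟨⟨h1, h2⟩, h3⟩
                exact ⟨h2, h3⟩
              · rintro ⟨h2, h3⟩
                refine ⟨⟨?_, h2⟩, h3⟩
                rintro rfl
                exact hxp h3.2.symm
            rw [hf]
            exact hold)
      cases hlp : lam (par l) with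
      | false =>
        refine ⟨Function.update ep l (s (par l)), s, ?_⟩
        intro Ω _ G w h W hW0 hW1
        rw [Z_elim h.sum_one hlA hlr hplA hpl hc, Function.update_self,
          Z_congr (ep' := ep) (by
            intro x hx
            rw [Function.update_of_ne (Finset.mem_erase.mp hx).1])]
        apply H Ω G w h _ (update_nonneg h hW0 _ _ _)
        intro v hv x
        by_cases hvp : v = par l
        · subst hvp
          rw [Function.update_self, Function.update_self, hlp]
          simp only [PL, Bool.not_false, if_true]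
          have h1 : W (par l) x ≤ 1 := by
            have := hW1 (par l) hplA x
            rw [hlp] at this
            simpa [PL] using this
          have h2 : ∀ y, W l y ≤ 1 := by
            intro y
            have := hW1 l hlA y
            rw [hlam] at this
            simpa [PL] using this
          have h3 := KK_le_PQ h (s (par l)) h2 x
          have h4 := KK_nonneg h (s (par l)) (hW0 l) x
          calc W (par l) x * KK G w (s (par l)) (W l) x
              ≤ 1 * KK G w (s (par l)) (W l) x := mul_le_mul_of_nonneg_right h1 h4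
            _ ≤ PQ G w (s (par l)) x := by rw [one_mul]; exact h3
        · rw [Function.update_of_ne hvp, Function.update_of_ne hvp]
          exact hW1 v (Finset.mem_erase.mp hv).2 x
      | true =>
        refine ⟨Function.update ep l false, Function.update s (par l) true, ?_⟩
        intro Ω _ G w h W hW0 hW1
        rw [Z_elim h.sum_one hlA hlr hplA hpl hc, Function.update_self,
          Z_congr (ep' := ep) (by
            intro x hx
            rw [Function.update_of_ne (Finset.mem_erase.mp hx).1])]
        apply H Ω G w h _ (update_nonneg h hW0 _ _ _)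
        intro v hv x
        by_cases hvp : v = par l
        · subst hvp
          rw [Function.update_self, Function.update_self, hlp]
          simp only [PL, Bool.not_true, Bool.false_eq_true, if_false]
          have h1 : W (par l) x ≤ PQ G w true x := by
            have := hW1 (par l) hplA x
            rw [hlp, Function.update_self] at this
            simpa [PL] using this
          have h2 : ∀ y, W l y ≤ 1 := by
            intro y
            have := hW1 l hlA y
            rw [hlam] at this
            simpa [PL] using this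
          have h3 := KK_le_PQ h false h2 x
          have h4 := KK_nonneg h false (hW0 l) x
          have h5 := PQ_mul_le h true x
          have h6 := PQ_nonneg h true x
          simp only [Bool.not_true] at h5
          calc W (par l) x * KK G w false (W l) x
              ≤ PQ G w true x * PQ G w false x := mul_le_mul h1 h3 h4 h6
            _ ≤ 1 := h5
        · rw [Function.update_of_ne hvp, Function.update_of_ne hvp]
          have := hW1 v (Finset.mem_erase.mp hv).2 x
          rwa [Function.update_of_ne hvp] at this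

end Phases

section Rooted

variable {V : Type} [Fintype V] [DecidableEq V]

omit [Fintype V] in
lemma exists_parent (T : SimpleGraph V) (hT : T.IsTree) (r : V) :
    ∃ par : V → V, (∀ x, x ≠ r → T.Adj x (par x) ∧ T.dist r x = T.dist r (par x) + 1) ∧
      (∀ x y, T.Adj x y → T.dist r x = T.dist r y + 1 → y = par x) := by
  classical
  have hex : ∀ x, ∃ y, x ≠ r → (T.Adj x y ∧ T.dist r x = T.dist r y + 1) := by
    intro x
    by_cases hx : x = r
    · exact ⟨x, fun h => absurd hx h⟩
    · obtain ⟨q, hq, hlen⟩ := hT.connected.exists_path_of_dist r x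
      have hnil : ¬ q.Nil := SimpleGraph.Walk.not_nil_of_ne (fun h => hx h.symm)
      refine ⟨q.penultimate, fun _ => ⟨(q.adj_penultimate hnil).symm, ?_⟩⟩
      have h1 : T.dist r q.penultimate ≤ q.length - 1 := by
        have h2 := SimpleGraph.dist_le (q.dropLast)
        have h3 : q.dropLast.length = q.length - 1 := by simp
        omega
      have h4 : 0 < q.length := by
        rcases Nat.eq_zero_or_pos q.length with h | h
        · exact absurd (SimpleGraph.Walk.length_eq_zero_iff.mp h) hnil
        · exact h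
      rcases hT.dist_eq_dist_add_one_of_adj r (q.adj_penultimate hnil) with h5 | h5
      · omega
      · exact h5
  choose par hpar using hex
  refine ⟨par, fun x hx => hpar x hx, ?_⟩
  have huniq : ∀ x, ∃ c, ∀ y, T.Adj x y → T.dist r x = T.dist r y + 1 → y = c := by
    intro x
    obtain ⟨p, hp, hlen⟩ := hT.connected.exists_path_of_dist r x
    refine ⟨p.penultimate, ?_⟩
    intro y hadj hd
    obtain ⟨q, hq, hqlen⟩ := hT.connected.exists_path_of_dist r y
    have hxq : x ∉ q.support := by
      intro hx
      have h1 := SimpleGraph.dist_le (q.takeUntil x hx)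
      have h2 := q.length_takeUntil_le_length hx
      omega
    have hyp : y ∈ p.support :=
      hT.isAcyclic.mem_support_of_ne_mem_support_of_adj_of_isPath hp hq hadj hxq
    exact hT.isAcyclic.eq_penultimate_of_adj_end hp hadj hyp
  intro x y hadj hd
  obtain ⟨c, hc⟩ := huniq x
  have hxr : x ≠ r := by
    rintro rfl
    simp at hd
  rw [hc y hadj hd, ← hc (par x) (hpar x hxr).1 (hpar x hxr).2]

/-- `D` satisfies the anti-Sidorenko inequality in every weighted tournament. -/
def Anti (D : V → V → Prop) : Prop :=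
  ∀ (m : ℕ) (G : Fin m → Fin m → Prop), (∀ a, ¬ G a a) → (∀ a b, a ≠ b → (G a b ↔ ¬ G b a)) →
    ∀ w : Fin m → ℝ, (∀ x, 0 ≤ w x) → ∀ (_ : DecidablePred
      (fun f : V → Fin m => ∀ u v, D u v → G (f u) (f v))),
    (∑ f : V → Fin m, (if (∀ u v, D u v → G (f u) (f v)) then ∏ v, w (f v) else 0)) *
      2 ^ (Fintype.card V - 1) ≤ (∑ x, w x) ^ Fintype.card V

/-- `D` is an orientation of `T`. -/
def Orients (D : V → V → Prop) (T : SimpleGraph V) : Prop :=
  (∀ u v, T.Adj u v → (D u v ∨ D v u)) ∧ (∀ u v, D u v → (T.Adj u v ∧ ¬ D v u))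

lemma kap_prod {Ω : Type} (G : Ω → Ω → Prop) (r : V) (par : V → V) (ep : V → Bool)
    (f : V → Ω) [Decidable (∀ x, x ≠ r → (if ep x then G (f (par x)) (f x) else G (f x) (f (par x))))] :
    ∏ x ∈ (Finset.univ : Finset V).erase r, kap G (ep x) (f (par x)) (f x) =
      if (∀ x, x ≠ r → (if ep x then G (f (par x)) (f x) else G (f x) (f (par x)))) then
        2 ^ (Fintype.card V - 1) else 0 := by
  split_ifs with h
  · have : ∀ x ∈ (Finset.univ : Finset V).erase r, kap G (ep x) (f (par x)) (f x) = 2 := by
      intro x hx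
      unfold kap
      rw [if_pos (h x (Finset.mem_erase.mp hx).1)]
    rw [Finset.prod_congr rfl this, Finset.prod_const, Finset.card_erase_of_mem (Finset.mem_univ _),
      Finset.card_univ]
  · push Not at h
    obtain ⟨x, hx, hn⟩ := h
    apply Finset.prod_eq_zero (Finset.mem_erase.mpr ⟨hx, Finset.mem_univ x⟩)
    unfold kap
    rw [if_neg hn]

theorem base_case (T : SimpleGraph V) (hT : T.IsTree) (u v : V) (q : T.Walk u v) (hq : q.IsPath)
    (hev : ∀ x, Even ((T.neighborSet x).ncard) → x ∈ q.support) :
    ∃ D : V → V → Prop, Orients D T ∧ Anti D := by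
  classical
  obtain ⟨par, hpar1, hpar2⟩ := exists_parent T hT u
  have hadj : ∀ x y, T.Adj x y ↔ ((x ≠ u ∧ y = par x) ∨ (y ≠ u ∧ x = par y)) := by
    intro x y
    constructor
    · intro h
      rcases hT.dist_eq_dist_add_one_of_adj u h with h1 | h1
      · left
        refine ⟨?_, hpar2 x y h h1⟩
        rintro rfl
        simp at h1
      · right
        refine ⟨?_, hpar2 y x h.symm h1⟩
        rintro rfl
        simp at h1
    · rintro (⟨h1, rfl⟩ | ⟨h1, rfl⟩)
      · exact (hpar1 x h1).1
      · exact (hpar1 y h1).1.symm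
  have hd : ∀ x, x ≠ u → T.dist u (par x) < T.dist u x := by
    intro x hx
    have := (hpar1 x hx).2
    omega
  have hinj : ∀ i ≤ q.length, ∀ j ≤ q.length, q.getVert i = q.getVert j → i = j :=
    fun i hi j hj h => hq.getVert_injOn hi hj h
  have hps : ∀ i, i < q.length → par (q.getVert (i + 1)) = q.getVert i := by
    intro i
    induction i with
    | zero =>
      intro hi
      have h1 := (hadj _ _).mp (q.adj_getVert_succ hi)
      rcases h1 with ⟨h1, _⟩ | ⟨_, h1⟩
      · exact absurd (by simp) h1
      · exact h1.symm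
    | succ i ih =>
      intro hi
      have h1 := (hadj _ _).mp (q.adj_getVert_succ hi)
      rcases h1 with ⟨_, h1⟩ | ⟨_, h1⟩
      · rw [ih (by omega)] at h1
        have := hinj _ (by omega) _ (by omega) h1
        omega
      · exact h1.symm
  have hPD : PathData u par q.getVert q.length := ⟨by simp, hinj, hps⟩
  have hsupp : ∀ x, x ∈ q.support ↔ x ∈ seg q.getVert q.length := by
    intro x
    rw [SimpleGraph.Walk.mem_support_iff_exists_getVert, mem_seg]
    constructor
    · rintro ⟨n, h1, h2⟩
      exact ⟨n, h2, h1⟩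
    · rintro ⟨n, h1, h2⟩
      exact ⟨n, h2, h1⟩
  obtain ⟨ep, s, H⟩ := off_path_phase hPD (fun x => T.dist u x) hd (Fintype.card V)
    Finset.univ (by rw [Finset.card_univ]) (Finset.subset_univ _) (fun _ _ _ => Finset.mem_univ _)
    (fun _ => false) (by
      intro x _ hx
      have hxu : x ≠ u := by
        rintro rfl
        exact hx (mem_seg.mpr ⟨0, Nat.zero_le _, by simp⟩)
      have hnot : ¬ Even ((T.neighborSet x).ncard) := fun h => hx ((hsupp x).mp (hev x h))
      have hset : T.neighborSet x =
          insert (par x) ((Finset.univ.filter (fun y => y ≠ u ∧ par y = x) : Finset V) : Set V) := by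
        ext y
        simp only [SimpleGraph.mem_neighborSet, hadj, Finset.coe_filter, Finset.mem_univ, true_and,
          Set.mem_insert_iff, Set.mem_ofPred_eq]
        constructor
        · rintro (⟨_, h⟩ | ⟨h1, h2⟩)
          · exact Or.inl h
          · exact Or.inr ⟨h1, h2.symm⟩
        · rintro (h | ⟨h1, h2⟩)
          · exact Or.inl ⟨hxu, h⟩
          · exact Or.inr ⟨h1, h2.symm⟩
      have hnm : par x ∉ ((Finset.univ.filter (fun y => y ≠ u ∧ par y = x) : Finset V) : Set V) := by
        simp only [Finset.coe_filter, Finset.mem_univ, true_and, Set.mem_ofPred_eq]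
        rintro ⟨h1, h2⟩
        have h3 := hd _ h1
        rw [h2] at h3
        have h4 := hd x hxu
        omega
      rw [hset, Set.ncard_insert_of_notMem hnm, Set.ncard_coe_finset] at hnot
      simp only [Bool.false_eq_true, if_false, add_zero]
      rw [Nat.even_add_one, not_not] at hnot
      exact hnot)
  refine ⟨fun a b => (b ≠ u ∧ a = par b ∧ ep b = true) ∨ (a ≠ u ∧ b = par a ∧ ep a = false), ⟨?_, ?_⟩, ?_⟩
  · intro a b hab
    rcases (hadj a b).mp hab with ⟨h1, h2⟩ | ⟨h1, h2⟩
    · cases h : ep a with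
      | true => exact Or.inr (Or.inl ⟨h1, h2, h⟩)
      | false => exact Or.inl (Or.inr ⟨h1, h2, h⟩)
    · cases h : ep b with
      | true => exact Or.inl (Or.inl ⟨h1, h2, h⟩)
      | false => exact Or.inr (Or.inr ⟨h1, h2, h⟩)
  · intro a b hab
    constructor
    · rcases hab with ⟨h1, h2, _⟩ | ⟨h1, h2, _⟩
      · exact (hadj a b).mpr (Or.inr ⟨h1, h2⟩)
      · exact (hadj a b).mpr (Or.inl ⟨h1, h2⟩)
    · rintro (⟨g1, g2, g3⟩ | ⟨g1, g2, g3⟩)
      · rcases hab with ⟨h1, h2, h3⟩ | ⟨h1, h2, h3⟩
        · have k1 := hd a g1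
          have k2 := hd b h1
          rw [← g2] at k1
          rw [← h2] at k2
          omega
        · rw [g3] at h3
          exact absurd h3 (by simp)
      · rcases hab with ⟨h1, h2, h3⟩ | ⟨h1, h2, h3⟩
        · rw [g3] at h3
          exact absurd h3 (by simp)
        · have k1 := hd b g1
          have k2 := hd a h1
          rw [← g2] at k1
          rw [← h2] at k2
          omega
  · intro m G hirr htour w hw0 hdec
    have hn : 0 < Fintype.card V := Fintype.card_pos_iff.mpr ⟨u⟩
    have hiff : ∀ f : V → Fin m,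
        (∀ a b, ((b ≠ u ∧ a = par b ∧ ep b = true) ∨ (a ≠ u ∧ b = par a ∧ ep a = false)) →
          G (f a) (f b)) ↔
        (∀ x, x ≠ u → (if ep x then G (f (par x)) (f x) else G (f x) (f (par x)))) := by
      intro f
      constructor
      · intro h x hx
        cases hep : ep x with
        | true => simpa using h (par x) x (Or.inl ⟨hx, rfl, hep⟩)
        | false => simpa using h x (par x) (Or.inr ⟨hx, rfl, hep⟩)
      · intro h a b hab
        rcases hab with ⟨h1, rfl, h3⟩ | ⟨h1, rfl, h3⟩
        · have := h b h1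
          rw [h3] at this
          simpa using this
        · have := h a h1
          rw [h3] at this
          simpa using this
    rcases (Finset.sum_nonneg (fun x _ => hw0 x) : 0 ≤ ∑ x, w x).eq_or_lt with hS | hS
    · have hz : ∀ x, w x = 0 := by
        intro x
        have := (Finset.sum_eq_zero_iff_of_nonneg (fun x _ => hw0 x)).mp hS.symm x (Finset.mem_univ x)
        exact this
      have hzero : ∀ f : V → Fin m, ∏ v, w (f v) = 0 := by
        intro f
        exact Finset.prod_eq_zero (Finset.mem_univ u) (hz _)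
      simp only [hzero, ite_self, Finset.sum_const_zero, zero_mul]
      positivity
    · set S := ∑ x, w x with hSdef
      have hval : Valid G (fun x => w x / S) := by
        refine ⟨hirr, htour, fun x => div_nonneg (hw0 x) hS.le, ?_⟩
        rw [← Finset.sum_div, ← hSdef]
        exact div_self hS.ne'
      have hZ := H (Fin m) G (fun x => w x / S) hval (fun _ _ => 1) (fun _ _ => zero_le_one)
        (fun v _ x => by simp [PL])
      have hZe : Z G (fun x => w x / S) u par Finset.univ ep (fun _ _ => 1) =
          (∑ f : V → Fin m, (if (∀ a b, ((b ≠ u ∧ a = par b ∧ ep b = true) ∨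
            (a ≠ u ∧ b = par a ∧ ep a = false)) → G (f a) (f b)) then ∏ v, w (f v) else 0)) *
            2 ^ (Fintype.card V - 1) / S ^ Fintype.card V := by
        unfold Z
        rw [Finset.sum_mul, Finset.sum_div]
        apply Finset.sum_congr rfl
        intro f _
        rw [kap_prod, Finset.prod_div_distrib]
        simp only [Finset.prod_const_one, mul_one, Finset.prod_const, Finset.card_univ]
        by_cases hf : (∀ x, x ≠ u → (if ep x then G (f (par x)) (f x) else G (f x) (f (par x))))
        · rw [if_pos hf, if_pos ((hiff f).mpr hf)]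
          ring
        · rw [if_neg hf, if_neg (fun h => hf ((hiff f).mp h))]
          ring
      rw [hZe, div_le_one (by positivity)] at hZ
      exact hZ

end Rooted

section Closure

/-- The weighted number of homomorphisms. -/
noncomputable def hs {V : Type} [Fintype V] [DecidableEq V] {Ω : Type} [Fintype Ω]
    (D : V → V → Prop) (G : Ω → Ω → Prop) (w : Ω → ℝ) : ℝ := by
  classical
  exact ∑ f : V → Ω, if (∀ u v, D u v → G (f u) (f v)) then ∏ v, w (f v) else 0

lemma anti_iff {V : Type} [Fintype V] [DecidableEq V] (D : V → V → Prop) :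
    Anti D ↔ ∀ (m : ℕ) (G : Fin m → Fin m → Prop), (∀ a, ¬ G a a) →
      (∀ a b, a ≠ b → (G a b ↔ ¬ G b a)) → ∀ w : Fin m → ℝ, (∀ x, 0 ≤ w x) →
      hs D G w * 2 ^ (Fintype.card V - 1) ≤ (∑ x, w x) ^ Fintype.card V := by
  classical
  constructor
  · intro h m G h1 h2 w hw
    exact h m G h1 h2 w hw _
  · intro h m G h1 h2 w hw hdec
    have := h m G h1 h2 w hw
    unfold hs at this
    convert this

/-- The orientation of `doubled`. -/
def DD {V U : Type} (DT : V → V → Prop) (DB : U → U → Prop) (a : V) (b : U) :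
    (V ⊕ (U ⊕ U)) → (V ⊕ (U ⊕ U)) → Prop
  | Sum.inl x, Sum.inl y => DT x y
  | Sum.inr (Sum.inl c), Sum.inr (Sum.inl d) => DB c d
  | Sum.inr (Sum.inr c), Sum.inr (Sum.inr d) => DB c d
  | Sum.inl x, Sum.inr (Sum.inl c) => x = a ∧ c = b
  | Sum.inr (Sum.inr c), Sum.inl x => x = a ∧ c = b
  | _, _ => False

lemma DD_orients {V U : Type} {T : SimpleGraph V} {B : SimpleGraph U} (a : V) (b : U)
    {DT : V → V → Prop} {DB : U → U → Prop} (hT : Orients DT T) (hB : Orients DB B) :
    Orients (DD DT DB a b) (doubled T B a b) := by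
  constructor
  · rintro (x | c | c) (y | d | d) h <;>
      simp only [doubled, SimpleGraph.sup_adj, SimpleGraph.sum_adj, SimpleGraph.edge_adj] at h
    · simpa [DD] using hT.1 x y (by simpa using h)
    · left
      simp only [DD]
      simpa using h
    · right
      simp only [DD]
      simpa using h
    · right
      simp only [DD]
      have : c = b ∧ y = a := by simpa using h
      exact ⟨this.2, this.1⟩
    · simpa [DD] using hB.1 c d (by simpa using h)
    · simp at h
    · left
      simp only [DD]
      have : c = b ∧ y = a := by simpa using h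
      exact ⟨this.2, this.1⟩
    · simp at h
    · simpa [DD] using hB.1 c d (by simpa using h)
  · rintro (x | c | c) (y | d | d) h <;>
      simp only [doubled, SimpleGraph.sup_adj, SimpleGraph.sum_adj, SimpleGraph.edge_adj] <;>
      simp only [DD] at h ⊢
    · have := hT.2 x y h
      simpa using this
    · simpa using h
    · have := hB.2 c d h
      simpa using this
    · obtain ⟨h1, h2⟩ := h
      simp [h1, h2]
    · have := hB.2 c d h
      simpa using this

lemma hs_DD {V U : Type} [Fintype V] [DecidableEq V] [Fintype U] [DecidableEq U]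
    (DT : V → V → Prop) (DB : U → U → Prop) (a : V) (b : U) {m : ℕ} (G : Fin m → Fin m → Prop)
    (h1 : ∀ a, ¬ G a a) (h2 : ∀ a b, a ≠ b → (G a b ↔ ¬ G b a)) (w : Fin m → ℝ)
    (hw : ∀ x, 0 ≤ w x) :
    hs (DD DT DB a b) G w * 4 ≤ hs DT G w * (hs DB G w) ^ 2 := by
  classical
  let al : Fin m → ℝ := fun x =>
    ∑ g : U → Fin m, if ((∀ u v, DB u v → G (g u) (g v)) ∧ G x (g b)) then ∏ v, w (g v) else 0
  let be : Fin m → ℝ := fun x =>
    ∑ g : U → Fin m, if ((∀ u v, DB u v → G (g u) (g v)) ∧ G (g b) x) then ∏ v, w (g v) else 0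
  have hal : ∀ x, 0 ≤ al x := fun x => Finset.sum_nonneg fun g _ => by
    split_ifs
    · exact Finset.prod_nonneg fun v _ => hw _
    · exact le_refl _
  have hbe : ∀ x, 0 ≤ be x := fun x => Finset.sum_nonneg fun g _ => by
    split_ifs
    · exact Finset.prod_nonneg fun v _ => hw _
    · exact le_refl _
  have hab : ∀ x, al x + be x ≤ hs DB G w := by
    intro x
    simp only [al, be, hs]
    rw [← Finset.sum_add_distrib]
    apply Finset.sum_le_sum
    intro g _
    have hp : 0 ≤ ∏ v, w (g v) := Finset.prod_nonneg fun v _ => hw _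
    by_cases hg : (∀ u v, DB u v → G (g u) (g v))
    · by_cases hx : G x (g b)
      · have hne : x ≠ g b := by
          intro h
          rw [← h] at hx
          exact h1 x hx
        have hn : ¬ G (g b) x := (h2 _ _ hne).mp hx
        rw [if_pos ⟨hg, hx⟩, if_neg (fun h => hn h.2), if_pos hg, add_zero]
      · rw [if_neg (fun h => hx h.2), if_pos hg, zero_add]
        split_ifs
        · exact le_refl _
        · exact hp
    · rw [if_neg (fun h => hg h.1), if_neg (fun h => hg h.1), if_neg hg]
      simp
  have hmain : hs (DD DT DB a b) G w =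
      ∑ f : V → Fin m, (if (∀ u v, DT u v → G (f u) (f v)) then ∏ v, w (f v) else 0) *
        (al (f a) * be (f a)) := by
    unfold hs
    rw [← Equiv.sum_comp (Equiv.sumArrowEquivProdArrow V (U ⊕ U) (Fin m)).symm,
      Fintype.sum_prod_type]
    apply Finset.sum_congr rfl
    intro f _
    rw [← Equiv.sum_comp (Equiv.sumArrowEquivProdArrow U U (Fin m)).symm,
      Fintype.sum_prod_type]
    simp only [al, be]
    rw [Finset.sum_mul_sum, Finset.mul_sum]
    apply Finset.sum_congr rfl
    intro g _
    rw [Finset.mul_sum]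
    apply Finset.sum_congr rfl
    intro g' _
    rw [Fintype.prod_sum_type, Fintype.prod_sum_type]
    simp only [Equiv.sumArrowEquivProdArrow_symm_apply_inl,
      Equiv.sumArrowEquivProdArrow_symm_apply_inr]
    have hiff : (∀ u v, DD DT DB a b u v →
        G ((Equiv.sumArrowEquivProdArrow V (U ⊕ U) (Fin m)).symm
          (f, (Equiv.sumArrowEquivProdArrow U U (Fin m)).symm (g, g')) u)
          ((Equiv.sumArrowEquivProdArrow V (U ⊕ U) (Fin m)).symm
          (f, (Equiv.sumArrowEquivProdArrow U U (Fin m)).symm (g, g')) v)) ↔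
        ((∀ u v, DT u v → G (f u) (f v)) ∧ ((∀ u v, DB u v → G (g u) (g v)) ∧ G (f a) (g b)) ∧
          ((∀ u v, DB u v → G (g' u) (g' v)) ∧ G (g' b) (f a))) := by
      constructor
      · intro h
        refine ⟨fun u v huv => ?_, ⟨fun u v huv => ?_, ?_⟩, ⟨fun u v huv => ?_, ?_⟩⟩
        · exact h (Sum.inl u) (Sum.inl v) huv
        · exact h (Sum.inr (Sum.inl u)) (Sum.inr (Sum.inl v)) huv
        · exact h (Sum.inl a) (Sum.inr (Sum.inl b)) ⟨rfl, rfl⟩
        · exact h (Sum.inr (Sum.inr u)) (Sum.inr (Sum.inr v)) huv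
        · exact h (Sum.inr (Sum.inr b)) (Sum.inl a) ⟨rfl, rfl⟩
      · rintro ⟨k1, ⟨k2, k3⟩, ⟨k4, k5⟩⟩ (x | c | c) (y | d | d) h <;>
          simp only [DD] at h
        · exact k1 x y h
        · obtain ⟨rfl, rfl⟩ := h
          exact k3
        · exact k2 c d h
        · obtain ⟨rfl, rfl⟩ := h
          exact k5
        · exact k4 c d h
    by_cases k1 : (∀ u v, DT u v → G (f u) (f v))
    · by_cases k2 : ((∀ u v, DB u v → G (g u) (g v)) ∧ G (f a) (g b))
      · by_cases k3 : ((∀ u v, DB u v → G (g' u) (g' v)) ∧ G (g' b) (f a))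
        · rw [if_pos (hiff.mpr ⟨k1, k2, k3⟩), if_pos k1, if_pos k2, if_pos k3]
        · rw [if_neg (fun h => k3 (hiff.mp h).2.2), if_neg k3]
          ring
      · rw [if_neg (fun h => k2 (hiff.mp h).2.1), if_neg k2]
        ring
    · rw [if_neg (fun h => k1 (hiff.mp h).1), if_neg k1]
      ring
  rw [hmain]
  unfold hs
  rw [Finset.sum_mul, Finset.sum_mul]
  apply Finset.sum_le_sum
  intro f _
  rw [mul_assoc]
  apply mul_le_mul_of_nonneg_left
  · have k1 := hab (f a)
    have k2 := hal (f a)
    have k3 := hbe (f a)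
    have k4 : (al (f a) + be (f a)) ^ 2 ≤ (hs DB G w) ^ 2 := by
      apply pow_le_pow_left₀ (by linarith) k1
    unfold hs at k4
    nlinarith [sq_nonneg (al (f a) - be (f a))]
  · split_ifs
    · exact Finset.prod_nonneg fun v _ => hw _
    · exact le_refl _

lemma hs_nonneg {V : Type} [Fintype V] [DecidableEq V] (D : V → V → Prop) {m : ℕ}
    (G : Fin m → Fin m → Prop) (w : Fin m → ℝ) (hw : ∀ x, 0 ≤ w x) : 0 ≤ hs D G w := by
  unfold hs
  apply Finset.sum_nonneg
  intro f _
  split_ifs
  · exact Finset.prod_nonneg fun v _ => hw _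
  · exact le_refl _

theorem double_case {V U : Type} [Fintype V] [DecidableEq V] [Fintype U] [DecidableEq U]
    (T : SimpleGraph V) (B : SimpleGraph U) (a : V) (b : U)
    (hT : ∃ D, Orients D T ∧ Anti D) (hB : ∃ D, Orients D B ∧ Anti D) :
    ∃ D, Orients D (doubled T B a b) ∧ Anti D := by
  obtain ⟨DT, hT1, hT2⟩ := hT
  obtain ⟨DB, hB1, hB2⟩ := hB
  refine ⟨DD DT DB a b, DD_orients a b hT1 hB1, ?_⟩
  rw [anti_iff] at hT2 hB2 ⊢
  intro m G h1 h2 w hw
  have k1 := hT2 m G h1 h2 w hw
  have k2 := hB2 m G h1 h2 w hw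
  have k3 := hs_DD DT DB a b G h1 h2 w hw
  have hn : 0 < Fintype.card V := Fintype.card_pos_iff.mpr ⟨a⟩
  have hk : 0 < Fintype.card U := Fintype.card_pos_iff.mpr ⟨b⟩
  have hc : Fintype.card (V ⊕ (U ⊕ U)) = Fintype.card V + (Fintype.card U + Fintype.card U) := by
    simp [Fintype.card_sum]
  have n1 := hs_nonneg DT G w hw
  have n2 := hs_nonneg DB G w hw
  have hW : 0 ≤ ∑ x, w x := Finset.sum_nonneg fun x _ => hw x
  rw [hc]
  have e1 : Fintype.card V + (Fintype.card U + Fintype.card U) - 1 =
      (Fintype.card V - 1) + ((Fintype.card U - 1) + (Fintype.card U - 1)) + 2 := by omega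
  rw [e1]
  have hpow : (2 : ℝ) ^ ((Fintype.card V - 1) + ((Fintype.card U - 1) + (Fintype.card U - 1)) + 2) =
      4 * 2 ^ (Fintype.card V - 1) * (2 ^ (Fintype.card U - 1)) ^ 2 := by
    rw [pow_add, pow_add, pow_add]
    ring
  calc hs (DD DT DB a b) G w *
        2 ^ ((Fintype.card V - 1) + ((Fintype.card U - 1) + (Fintype.card U - 1)) + 2)
      = (hs (DD DT DB a b) G w * 4) *
          (2 ^ (Fintype.card V - 1) * (2 ^ (Fintype.card U - 1)) ^ 2) := by rw [hpow]; ring
    _ ≤ (hs DT G w * (hs DB G w) ^ 2) *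
          (2 ^ (Fintype.card V - 1) * (2 ^ (Fintype.card U - 1)) ^ 2) :=
        mul_le_mul_of_nonneg_right k3 (by positivity)
    _ = (hs DT G w * 2 ^ (Fintype.card V - 1)) * (hs DB G w * 2 ^ (Fintype.card U - 1)) ^ 2 := by
        ring
    _ ≤ (∑ x, w x) ^ Fintype.card V * ((∑ x, w x) ^ Fintype.card U) ^ 2 := by
        apply mul_le_mul k1 _ (by positivity) (by positivity)
        exact pow_le_pow_left₀ (by positivity) k2 2
    _ = (∑ x, w x) ^ (Fintype.card V + (Fintype.card U + Fintype.card U)) := by
        rw [pow_add, pow_add]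
        ring

end Closure

section Rooted2

/-- The orientation of the rooted product. -/
def RD {V U : Type} (DT : V → V → Prop) (DB : U → U → Prop) (b : U) (p q : V × U) : Prop :=
  (p.1 = q.1 ∧ DB p.2 q.2) ∨ (DT p.1 q.1 ∧ p.2 = b ∧ q.2 = b)

lemma Orients.irrefl {V : Type} {T : SimpleGraph V} {D : V → V → Prop} (h : Orients D T) (x : V) :
    ¬ D x x := fun hx => (h.2 x x hx).2 hx

lemma RD_orients {V U : Type} {T : SimpleGraph V} {B : SimpleGraph U} (b : U)
    {DT : V → V → Prop} {DB : U → U → Prop} (hT : Orients DT T) (hB : Orients DB B) :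
    Orients (RD DT DB b) (rooted T B b) := by
  constructor
  · rintro ⟨x, c⟩ ⟨y, d⟩ (⟨h1, h2⟩ | ⟨h1, h2, h3⟩)
    · simp only at h1 h2
      rcases hB.1 c d h2 with h | h
      · exact Or.inl (Or.inl ⟨h1, h⟩)
      · exact Or.inr (Or.inl ⟨h1.symm, h⟩)
    · simp only at h1 h2 h3
      rcases hT.1 x y h1 with h | h
      · exact Or.inl (Or.inr ⟨h, h2, h3⟩)
      · exact Or.inr (Or.inr ⟨h, h3, h2⟩)
  · rintro ⟨x, c⟩ ⟨y, d⟩ (⟨h1, h2⟩ | ⟨h1, h2, h3⟩)
    · simp only at h1 h2
      subst h1
      refine ⟨Or.inl ⟨rfl, (hB.2 c d h2).1⟩, ?_⟩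
      rintro (⟨_, k2⟩ | ⟨k1, _, _⟩)
      · exact (hB.2 c d h2).2 k2
      · exact hT.irrefl _ k1
    · simp only at h1 h2 h3
      subst h2
      subst h3
      refine ⟨Or.inr ⟨(hT.2 x y h1).1, rfl, rfl⟩, ?_⟩
      rintro (⟨_, k2⟩ | ⟨k1, _, _⟩)
      · exact hB.irrefl _ k2
      · exact (hT.2 x y h1).2 k1

/-- Weight of a vertex `z` in the blown-up measure. -/
noncomputable def gam {U : Type} [Fintype U] [DecidableEq U] {m : ℕ} (DB : U → U → Prop) (b : U)
    (G : Fin m → Fin m → Prop) (w : Fin m → ℝ) (z : Fin m) : ℝ := by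
  classical
  exact ∑ g : U → Fin m, if ((∀ u v, DB u v → G (g u) (g v)) ∧ g b = z) then ∏ v, w (g v) else 0

lemma hs_RD {V U : Type} [Fintype V] [DecidableEq V] [Fintype U] [DecidableEq U]
    (DT : V → V → Prop) (DB : U → U → Prop) (b : U) {m : ℕ} (G : Fin m → Fin m → Prop)
    (w : Fin m → ℝ) :
    hs (RD DT DB b) G w = hs DT G (gam DB b G w) := by
  classical
  have hgam : ∀ h : V → Fin m, ∏ x, gam DB b G w (h x) =
      ∑ F : V → U → Fin m, ∏ x, (if ((∀ u v, DB u v → G (F x u) (F x v)) ∧ F x b = h x) then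
        ∏ c, w (F x c) else 0) := by
    intro h
    unfold gam
    rw [Finset.prod_univ_sum]
    simp only [Fintype.piFinset_univ]
  have hR : hs DT G (gam DB b G w) = ∑ h : V → Fin m, ∑ F : V → U → Fin m,
      (if (∀ u v, DT u v → G (h u) (h v)) then
        ∏ x, (if ((∀ u v, DB u v → G (F x u) (F x v)) ∧ F x b = h x) then
        ∏ c, w (F x c) else 0) else 0) := by
    unfold hs
    apply Finset.sum_congr rfl
    intro h _
    rw [hgam h]
    split_ifs
    · rfl
    · simp
  rw [hR, Finset.sum_comm]
  unfold hs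
  rw [← Equiv.sum_comp (Equiv.curry V U (Fin m)).symm]
  apply Finset.sum_congr rfl
  intro F _
  rw [Finset.sum_eq_single (fun x => F x b)]
  · rw [Fintype.prod_prod_type]
    simp only [Equiv.curry_symm_apply, Function.uncurry_apply_pair, and_true]
    by_cases hB : ∀ x, ∀ u v, DB u v → G (F x u) (F x v)
    · have e1 : ∏ x, (if (∀ u v, DB u v → G (F x u) (F x v)) then ∏ c, w (F x c) else 0) =
          ∏ x, ∏ c, w (F x c) := by
        apply Finset.prod_congr rfl
        intro x _
        rw [if_pos (hB x)]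
      rw [e1]
      have hiff : (∀ p q : V × U, RD DT DB b p q → G (Function.uncurry F p) (Function.uncurry F q)) ↔
          (∀ u v, DT u v → G (F u b) (F v b)) := by
        constructor
        · intro h u v huv
          exact h (u, b) (v, b) (Or.inr ⟨huv, rfl, rfl⟩)
        · rintro h ⟨x, c⟩ ⟨y, d⟩ (⟨h1, h2⟩ | ⟨h1, h2, h3⟩)
          · simp only at h1 h2
            subst h1
            exact hB x c d h2
          · simp only at h1 h2 h3
            subst h2
            subst h3
            exact h x y h1
      by_cases hT : (∀ u v, DT u v → G (F u b) (F v b))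
      · rw [if_pos (hiff.mpr hT), if_pos hT]
      · rw [if_neg (fun h => hT (hiff.mp h)), if_neg hT]
    · rw [if_neg]
      · symm
        split_ifs
        · push Not at hB
          obtain ⟨x, u, v, h1, h2⟩ := hB
          apply Finset.prod_eq_zero (Finset.mem_univ x)
          rw [if_neg]
          intro h
          exact h2 (h u v h1)
        · rfl
      · intro h
        apply hB
        intro x u v huv
        exact h (x, u) (x, v) (Or.inl ⟨rfl, huv⟩)
  · intro h _ hne
    split_ifs
    · have : ∃ x, F x b ≠ h x := by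
        by_contra hcon
        push Not at hcon
        exact hne (funext fun x => (hcon x).symm)
      obtain ⟨x, hx⟩ := this
      apply Finset.prod_eq_zero (Finset.mem_univ x)
      rw [if_neg]
      exact fun h => hx h.2
    · rfl
  · intro h
    exact absurd (Finset.mem_univ _) h

lemma sum_gam {U : Type} [Fintype U] [DecidableEq U] {m : ℕ} (DB : U → U → Prop) (b : U)
    (G : Fin m → Fin m → Prop) (w : Fin m → ℝ) : ∑ z, gam DB b G w z = hs DB G w := by
  classical
  unfold gam hs
  rw [Finset.sum_comm]
  apply Finset.sum_congr rfl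
  intro g _
  by_cases hg : (∀ u v, DB u v → G (g u) (g v))
  · rw [if_pos hg, Finset.sum_eq_single (g b)]
    · rw [if_pos ⟨hg, rfl⟩]
    · intro z _ hz
      rw [if_neg (fun h => hz h.2.symm)]
    · intro h
      exact absurd (Finset.mem_univ _) h
  · rw [if_neg hg]
    apply Finset.sum_eq_zero
    intro z _
    rw [if_neg (fun h => hg h.1)]

theorem rooted_case {V U : Type} [Fintype V] [DecidableEq V] [Fintype U] [DecidableEq U]
    (T : SimpleGraph V) (B : SimpleGraph U) (b : U)
    (hT : ∃ D, Orients D T ∧ Anti D) (hB : ∃ D, Orients D B ∧ Anti D) :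
    ∃ D, Orients D (rooted T B b) ∧ Anti D := by
  classical
  obtain ⟨DT, hT1, hT2⟩ := hT
  obtain ⟨DB, hB1, hB2⟩ := hB
  refine ⟨RD DT DB b, RD_orients b hT1 hB1, ?_⟩
  rw [anti_iff] at hT2 hB2 ⊢
  intro m G h1 h2 w hw
  have hg : ∀ z, 0 ≤ gam DB b G w z := by
    intro z
    unfold gam
    apply Finset.sum_nonneg
    intro g _
    split_ifs
    · exact Finset.prod_nonneg fun v _ => hw _
    · exact le_refl _
  have k1 := hT2 m G h1 h2 (gam DB b G w) hg
  have k2 := hB2 m G h1 h2 w hw
  rw [sum_gam] at k1
  rw [hs_RD]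
  have hk : 0 < Fintype.card U := Fintype.card_pos_iff.mpr ⟨b⟩
  have n2 := hs_nonneg DB G w hw
  have n3 := hs_nonneg DT G (gam DB b G w) hg
  have hc : Fintype.card (V × U) - 1 =
      (Fintype.card V - 1) + (Fintype.card U - 1) * Fintype.card V := by
    rw [Fintype.card_prod]
    obtain ⟨k, hk'⟩ : ∃ k, Fintype.card U = k + 1 := ⟨Fintype.card U - 1, by omega⟩
    rcases Nat.eq_zero_or_pos (Fintype.card V) with h0 | h0
    · rw [h0]; simp
    · obtain ⟨n, hn'⟩ : ∃ n, Fintype.card V = n + 1 := ⟨Fintype.card V - 1, by omega⟩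
      rw [hk', hn']
      simp only [Nat.add_sub_cancel]
      have : (n + 1) * (k + 1) = n + k * (n + 1) + 1 := by ring
      omega
  rw [hc, pow_add, ← mul_assoc]
  calc hs DT G (gam DB b G w) * 2 ^ (Fintype.card V - 1) *
        2 ^ ((Fintype.card U - 1) * Fintype.card V)
      ≤ (hs DB G w) ^ Fintype.card V * 2 ^ ((Fintype.card U - 1) * Fintype.card V) :=
        mul_le_mul_of_nonneg_right k1 (by positivity)
    _ = (hs DB G w * 2 ^ (Fintype.card U - 1)) ^ Fintype.card V := by
        rw [mul_pow, pow_mul]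
    _ ≤ ((∑ x, w x) ^ Fintype.card U) ^ Fintype.card V :=
        pow_le_pow_left₀ (by positivity) k2 _
    _ = (∑ x, w x) ^ Fintype.card (V × U) := by
        rw [Fintype.card_prod, ← pow_mul, mul_comm (Fintype.card U)]

theorem iso_case {V U : Type} [Fintype V] [DecidableEq V] [Fintype U] [DecidableEq U]
    (T : SimpleGraph V) (T' : SimpleGraph U) (e : T' ≃g T)
    (hT : ∃ D, Orients D T ∧ Anti D) : ∃ D, Orients D T' ∧ Anti D := by
  classical
  obtain ⟨D, h1, h2⟩ := hT
  refine ⟨fun x y => D (e x) (e y), ⟨?_, ?_⟩, ?_⟩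
  · intro u v huv
    exact h1.1 _ _ (e.map_rel_iff.mpr huv)
  · intro u v huv
    refine ⟨e.map_rel_iff.mp (h1.2 _ _ huv).1, (h1.2 _ _ huv).2⟩
  · rw [anti_iff] at h2 ⊢
    intro m G k1 k2 w hw
    have k3 := h2 m G k1 k2 w hw
    have hcard : Fintype.card U = Fintype.card V := Fintype.card_congr e.toEquiv
    have hh : hs (fun x y => D (e x) (e y)) G w = hs D G w := by
      unfold hs
      rw [← Equiv.sum_comp (Equiv.arrowCongr e.toEquiv (Equiv.refl (Fin m))).symm]
      apply Finset.sum_congr rfl
      intro f _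
      have hiff : (∀ u v, D (e u) (e v) →
          G (((Equiv.arrowCongr e.toEquiv (Equiv.refl (Fin m))).symm f) u)
            (((Equiv.arrowCongr e.toEquiv (Equiv.refl (Fin m))).symm f) v)) ↔
          (∀ u v, D u v → G (f u) (f v)) := by
        constructor
        · intro h u v huv
          have := h (e.symm u) (e.symm v) (by simpa using huv)
          simpa using this
        · intro h u v huv
          have := h (e u) (e v) huv
          simpa using this
      have hprod : ∏ v, w (((Equiv.arrowCongr e.toEquiv (Equiv.refl (Fin m))).symm f) v) =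
          ∏ v, w (f v) := by
        rw [← Equiv.prod_comp e.toEquiv (fun v => w (f v))]
        apply Finset.prod_congr rfl
        intro v _
        simp
      rw [hprod]
      by_cases hf : (∀ u v, D u v → G (f u) (f v))
      · rw [if_pos (hiff.mpr hf), if_pos hf]
      · rw [if_neg (fun h => hf (hiff.mp h)), if_neg hf]
    rw [hh, hcard]
    exact k3

lemma cls_good {n : ℕ} {T : SimpleGraph (Fin n)} (h : Cls n T) : ∃ D, Orients D T ∧ Anti D := by
  induction h with
  | evenOnPath T hT u v p hp hev => exact base_case T hT u v p hp hev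
  | double T B a b T' e _ _ ih1 ih2 => exact iso_case _ _ e (double_case T B a b ih1 ih2)
  | product T B b T' e _ _ ih1 ih2 => exact iso_case _ _ e (rooted_case T B b ih1 ih2)

lemma good_bound {n : ℕ} (T : SimpleGraph (Fin n)) (hT : T.IsTree)
    (h : ∃ D, Orients D T ∧ Anti D) :
    ∃ D : Fin n → Fin n → Prop,
        (∀ u v, T.Adj u v → (D u v ∨ D v u)) ∧
        (∀ u v, D u v → (T.Adj u v ∧ ¬ D v u)) ∧
        ∀ m : ℕ, ∀ G : Fin m → Fin m → Prop,
          (∀ a, ¬ G a a) →
          (∀ a b, a ≠ b → (G a b ↔ ¬ G b a)) →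
          (({f : Fin n → Fin m | ∀ u v, D u v → G (f u) (f v)}.ncard : ℝ) / (m : ℝ) ^ n
            ≤ ((1 : ℝ) / 2) ^ (T.edgeSet.ncard)) := by
  classical
  obtain ⟨D, h1, h2⟩ := h
  refine ⟨D, h1.1, h1.2, ?_⟩
  intro m G k1 k2
  rw [anti_iff] at h2
  have k3 := h2 m G k1 k2 (fun _ => 1) (fun _ => zero_le_one)
  have hE : T.edgeSet.ncard = n - 1 := by
    have := (SimpleGraph.isTree_iff_connected_and_card.mp hT).2
    rw [Nat.card_coe_set_eq] at this
    simp only [Nat.card_eq_fintype_card, Fintype.card_fin] at this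
    omega
  have hs1 : hs D G (fun _ => (1 : ℝ)) =
      ({f : Fin n → Fin m | ∀ u v, D u v → G (f u) (f v)}.ncard : ℝ) := by
    unfold hs
    simp only [Finset.prod_const_one]
    rw [Finset.sum_boole]
    congr 1
    rw [← Set.ncard_coe_finset]
    congr 1
    ext f
    simp
  rw [hs1] at k3
  simp only [Fintype.card_fin, Finset.sum_const, Finset.card_univ, nsmul_eq_mul, mul_one] at k3
  rw [hE]
  rcases Nat.eq_zero_or_pos m with hm | hm
  · subst hm
    have hn : 0 < n := by
      have := hT.connected.nonempty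
      exact Fin.pos_iff_nonempty.mpr this
    have h0 : ((0 : ℕ) : ℝ) ^ n = 0 := by
      rw [Nat.cast_zero]
      exact zero_pow hn.ne'
    rw [h0, div_zero]
    positivity
  · have hmp : (0 : ℝ) < (m : ℝ) ^ n := by positivity
    rw [div_le_iff₀ hmp, one_div, inv_pow]
    rw [inv_mul_eq_div, le_div_iff₀ (by positivity)]
    exact k3

end Rooted2

theorem result : ∀ n : ℕ, ∀ T : SimpleGraph (Fin n), T.IsTree → Cls n T →
      ∃ D : Fin n → Fin n → Prop,
        (∀ u v, T.Adj u v → (D u v ∨ D v u)) ∧
        (∀ u v, D u v → (T.Adj u v ∧ ¬ D v u)) ∧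
        ∀ m : ℕ, ∀ G : Fin m → Fin m → Prop,
          (∀ a, ¬ G a a) →
          (∀ a b, a ≠ b → (G a b ↔ ¬ G b a)) →
          (({f : Fin n → Fin m | ∀ u v, D u v → G (f u) (f v)}.ncard : ℝ) / (m : ℝ) ^ n
            ≤ ((1 : ℝ) / 2) ^ (T.edgeSet.ncard)) :=
  fun _ T hT h => good_bound T hT (cls_good h)

end Pool.Agent.Results.MP_d27362_co.TreeClass
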